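import Pool.Agent.Q74.PD.Stm

/-! # Project PD, job Dav: the mean of `Dn` over `[A, 2A)` -/

set_option autoImplicit false

namespace Pool.Agent.Q251.PD

open Finset Filter Topology
open Pool.Agent.Q74.PD

/-- a sum with bounded initial sums against an antitone nonnegative weight -/
theorem abel_bound (g h : ℕ → ℝ) (C : ℝ) (hh : ∀ i, h (i + 1) ≤ h i) (h0 : ∀ i, 0 ≤ h i)
    (hG : ∀ N, |∑ i ∈ range N, g i| ≤ C) (N : ℕ) :
    |∑ i ∈ range N, g i * h i| ≤ C * h 0 := by
  have key : ∀ N : ℕ, ∑ i ∈ range N, g i * h i = (∑ i ∈ range N, g i) * h N +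
      ∑ i ∈ range N, (∑ j ∈ range (i + 1), g j) * (h i - h (i + 1)) := by
    intro N
    induction N with
    | zero => simp
    | succ N ih =>
      rw [sum_range_succ, ih, sum_range_succ (fun i => (∑ j ∈ range (i + 1), g j) * (h i - h (i + 1))),
        sum_range_succ g]
      ring
  rw [key]
  have h1 : |(∑ i ∈ range N, g i) * h N| ≤ C * h N := by
    rw [abs_mul, abs_of_nonneg (h0 N)]
    exact mul_le_mul_of_nonneg_right (hG N) (h0 N)
  have h2 : |∑ i ∈ range N, (∑ j ∈ range (i + 1), g j) * (h i - h (i + 1))| ≤ C * (h 0 - h N) := by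
    refine (abs_sum_le_sum_abs _ _).trans ?_
    have h3 : ∀ i ∈ range N, |(∑ j ∈ range (i + 1), g j) * (h i - h (i + 1))| ≤ C * (h i - h (i + 1)) := by
      intro i _
      rw [abs_mul, abs_of_nonneg (sub_nonneg.2 (hh i))]
      exact mul_le_mul_of_nonneg_right (hG (i + 1)) (sub_nonneg.2 (hh i))
    refine (sum_le_sum h3).trans ?_
    rw [← mul_sum, sum_range_sub' h N]
  have := (abs_add_le ((∑ i ∈ range N, g i) * h N)
    (∑ i ∈ range N, (∑ j ∈ range (i + 1), g j) * (h i - h (i + 1)))).trans (add_le_add h1 h2)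
  linarith

/-- initial sums of a bounded function whose sums over `M` consecutive integers vanish -/
theorem partial_sum_bound (g : ℕ → ℝ) (M : ℕ) (hM : 1 ≤ M) (B : ℝ) (hB : 0 ≤ B) (hg : ∀ i, |g i| ≤ B)
    (hz : ∀ i, ∑ j ∈ range M, g (i + j) = 0) (N : ℕ) : |∑ i ∈ range N, g i| ≤ M * B := by
  induction N using Nat.strong_induction_on with
  | _ N ih =>
    rcases Nat.lt_or_ge N M with h | h
    · refine (abs_sum_le_sum_abs _ _).trans ?_
      refine (sum_le_sum (fun i _ => hg i)).trans ?_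
      rw [sum_const, card_range, nsmul_eq_mul]
      exact mul_le_mul_of_nonneg_right (by exact_mod_cast h.le) hB
    · have e : N = (N - M) + M := by omega
      have h1 : ∑ i ∈ range N, g i = ∑ i ∈ range (N - M), g i := by
        conv_lhs => rw [e]
        rw [sum_range_add, hz, add_zero]
      rw [h1]
      exact ih (N - M) (by omega)

/-- harmonic sums over `[P, P + N)` -/
theorem harm_bound (P : ℝ) (hP : 0 < P) (N : ℕ) :
    Real.log ((P + N) / P) ≤ ∑ i ∈ range N, 1 / (P + i) ∧
    ∑ i ∈ range N, 1 / (P + i) ≤ Real.log ((P + N) / P) + (1 / P - 1 / (P + N)) := by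
  induction N with
  | zero => simp [hP.ne']
  | succ N ih =>
    have hx : 0 < P + N := by positivity
    have hy : 0 < P + N + 1 := by positivity
    have e1 : Real.log ((P + ((N + 1 : ℕ) : ℝ)) / P) = Real.log ((P + N) / P) + Real.log ((P + N + 1) / (P + N)) := by
      rw [← Real.log_mul (by positivity) (by positivity)]
      congr 1
      push_cast
      field_simp
      ring
    have u1 : Real.log ((P + N + 1) / (P + N)) ≤ 1 / (P + N) := by
      have := Real.log_le_sub_one_of_pos (show 0 < (P + N + 1) / (P + N) by positivity)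
      have e2 : (P + N + 1) / (P + N) - 1 = 1 / (P + N) := by field_simp; ring
      linarith
    have u2 : 1 / (P + N + 1) ≤ Real.log ((P + N + 1) / (P + N)) := by
      have := Real.one_sub_inv_le_log_of_pos (show 0 < (P + N + 1) / (P + N) by positivity)
      have e2 : 1 - ((P + N + 1) / (P + N))⁻¹ = 1 / (P + N + 1) := by field_simp; ring
      linarith
    rw [sum_range_succ, e1]
    refine ⟨by linarith [ih.1], ?_⟩
    have e3 : P + ((N + 1 : ℕ) : ℝ) = P + N + 1 := by push_cast; ring
    rw [e3]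
    linarith [ih.2]

theorem sum_Ico_eq (f : ℤ → ℝ) (P Q : ℤ) (h : P ≤ Q) :
    ∑ a ∈ Ico P Q, f a = ∑ i ∈ range (Q - P).toNat, f (P + i) := by
  obtain ⟨N, hN⟩ := Int.eq_ofNat_of_zero_le (sub_nonneg.2 h)
  have hQ : Q = P + N := by linarith
  subst hQ
  have e : (P + (N : ℤ) - P).toNat = N := by simp
  rw [e]
  clear h hN e
  induction N with
  | zero => simp
  | succ N ih =>
    rw [sum_range_succ, ← ih]
    have e2 : Ico P (P + ((N + 1 : ℕ) : ℤ)) = insert (P + (N : ℤ)) (Ico P (P + (N : ℤ))) := by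
      ext x
      simp only [mem_Ico, mem_insert]
      push_cast
      omega
    rw [e2, sum_insert (by simp)]
    ring

theorem dav (h : S_Dlm) : S_Dav := by
  intro d hd n ε hε
  obtain ⟨h1, h2, -⟩ := h d hd n
  obtain ⟨-, -, h3⟩ := h d hd 0
  set M : ℕ := 3 ^ n with hMdef
  have hM1 : 1 ≤ M := Nat.one_le_pow _ _ (by norm_num)
  have hMr : (1 : ℝ) ≤ M := by exact_mod_cast hM1
  have hnn : ∀ a, 0 ≤ Dn d n a := fun a => (h1 0 a).1.trans (h1 0 a).2.1
  have hle : ∀ a, Dn d n a ≤ M := fun a => by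
    have := (h1 0 a).2.2.1
    simpa [hMdef] using this
  have hsum : ∀ a : ℤ, ∑ j ∈ range M, Dn d n (a + j) = M := by
    intro a
    have := h3 n a
    simp only [zero_add, pow_zero, one_mul] at this
    rw [hMdef]
    rw [this]
    simp [Dn]
  refine ⟨max 1 (((M : ℝ) * M + 2) / ε), fun A hA => ?_⟩
  have hA1 : 1 ≤ A := (le_max_left _ _).trans hA
  have hA2 : ((M : ℝ) * M + 2) / A ≤ ε := by
    have : ((M : ℝ) * M + 2) / ε ≤ A := (le_max_right _ _).trans hA
    rw [div_le_iff₀ (by linarith)]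
    rw [div_le_iff₀ hε] at this
    linarith
  have hA0 : 0 < A := by linarith
  set P : ℤ := ⌈A⌉ with hP
  set Q : ℤ := ⌈2 * A⌉ with hQ
  have hPA : A ≤ P := Int.le_ceil A
  have hPA2 : (P : ℝ) < A + 1 := Int.ceil_lt_add_one A
  have hQA : 2 * A ≤ Q := Int.le_ceil _
  have hQA2 : (Q : ℝ) < 2 * A + 1 := Int.ceil_lt_add_one _
  have hPQ : P ≤ Q := Int.ceil_mono (by linarith)
  have hP0 : (0 : ℝ) < P := by linarith
  rw [sum_Ico_eq _ P Q hPQ]
  set N : ℕ := (Q - P).toNat with hN
  have hNr : (P : ℝ) + N = Q := by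
    have : (N : ℤ) = Q - P := Int.toNat_of_nonneg (sub_nonneg.2 hPQ)
    have h' : (N : ℝ) = Q - P := by exact_mod_cast this
    linarith
  -- the mean zero part
  have hab : |∑ i ∈ range N, (Dn d n (P + i) - 1) * (1 / ((P : ℝ) + i))| ≤ (M * M : ℝ) * (1 / P) := by
    have hB : ∀ i : ℕ, |Dn d n (P + i) - 1| ≤ M := by
      intro i
      rw [abs_le]
      constructor
      · linarith [hnn (P + i)]
      · linarith [hle (P + i)]
    have hz : ∀ i : ℕ, ∑ j ∈ range M, (Dn d n (P + ((i + j : ℕ) : ℤ)) - 1) = 0 := by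
      intro i
      rw [sum_sub_distrib]
      have : ∀ j ∈ range M, Dn d n (P + ((i + j : ℕ) : ℤ)) = Dn d n ((P + i) + j) := by
        intro j _
        congr 1
        push_cast
        ring
      rw [sum_congr rfl this, hsum]
      simp
    have := abel_bound (fun i : ℕ => Dn d n (P + i) - 1) (fun i : ℕ => 1 / ((P : ℝ) + i)) (M * M : ℝ)
      (fun i => by
        apply one_div_le_one_div_of_le
        · positivity
        · push_cast; linarith)
      (fun i => by positivity)
      (fun K => partial_sum_bound _ M hM1 M (by positivity) hB hz K) N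
    simpa using this
  obtain ⟨hl, hu⟩ := harm_bound (P : ℝ) hP0 N
  rw [hNr] at hl hu
  have e : ∑ i ∈ range N, Dn d n (P + i) / ((P + (i : ℤ) : ℤ) : ℝ) =
      ∑ i ∈ range N, (Dn d n (P + i) - 1) * (1 / ((P : ℝ) + i)) + ∑ i ∈ range N, 1 / ((P : ℝ) + i) := by
    rw [← sum_add_distrib]
    refine sum_congr rfl fun i _ => ?_
    push_cast
    ring
  rw [e]
  have hQ0 : (0 : ℝ) < Q := by linarith
  have l1 : Real.log ((Q : ℝ) / P) - Real.log 2 ≤ 1 / A := by
    rw [← Real.log_div (by positivity) (by norm_num)]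
    refine (Real.log_le_sub_one_of_pos (by positivity)).trans ?_
    rw [div_div, div_sub_one (by positivity), div_le_div_iff₀ (by positivity) hA0]
    nlinarith
  have l2 : Real.log 2 - Real.log ((Q : ℝ) / P) ≤ 1 / A := by
    rw [← Real.log_div (by norm_num) (by positivity)]
    refine (Real.log_le_sub_one_of_pos (by positivity)).trans ?_
    rw [div_sub_one (by positivity), div_le_div_iff₀ (by positivity) hA0]
    rw [show (2 : ℝ) - Q / P = (2 * P - Q) / P by field_simp]
    rw [div_mul_eq_mul_div, div_le_iff₀ hP0, one_mul, div_mul_cancel₀ _ hP0.ne']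
    nlinarith
  have l3 : (1 : ℝ) / P ≤ 1 / A := one_div_le_one_div_of_le hA0 hPA
  have l4 : (0 : ℝ) ≤ 1 / Q := by positivity
  have l5 : (M * M : ℝ) * (1 / P) ≤ (M * M : ℝ) * (1 / A) := mul_le_mul_of_nonneg_left l3 (by positivity)
  have l6 : ((M : ℝ) * M + 2) / A = (M * M : ℝ) * (1 / A) + 1 / A + 1 / A := by ring
  rw [abs_le] at hab ⊢
  constructor
  · linarith [hab.1]
  · linarith [hab.2]

end Pool.Agent.Q251.PD
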